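import Pool.Agent.Helper82.GS.Bridge2

/-!
# Generic metrics on closed surfaces: from the surface to its unit tangent bundle

`S` is any closed surface (a compact Hausdorff smooth manifold of dimension two).  `RMetric Plane S` is the space of
smooth Riemannian metrics on `S` with the smooth topology.  For all metrics in a residual subset: if the closed
geodesics are equidistributed in the surface, then they are dense in the unit tangent bundle.  Every metric has exactly
one area measure in the sense of `IsArea`.
-/

namespace Pool.Agent.Results.MP_6f990d_gt.GenericUnitTangent

open Pool.Agent.Helper82.GS.Stmt MeasureTheory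
open scoped ContDiff

theorem result (S : Type*) [TopologicalSpace S] [CompactSpace S] [T2Space S] [ChartedSpace Plane S]
    [IsManifold (modelWithCornersSelf ℝ Plane) ∞ S] [MeasurableSpace S] [BorelSpace S] :
    (∀ g : RMetric Plane S, ∃! μ : Measure S, IsArea g μ) ∧
    ∀ᶠ g in residual (RMetric Plane S), Equidistributed g → ClosedGeodesicsDense g :=
  ⟨fun g => Pool.Agent.Helper82.GS.exists_unique_area' g, Pool.Agent.Helper82.GS.main' S⟩

end Pool.Agent.Results.MP_6f990d_gt.GenericUnitTangent
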